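import Mathlib
import Pool.Agent.R343.LD3
import Pool.Agent.Run7.h6.ZM.Meas

set_option autoImplicit false

/-!
# The expansions of `ζ(7), ζ(9), ζ(11), ζ(13)` are not compressible

A word of letters is cut into `z` phrases (`LZ a L z`, Lempel and Ziv) if each phrase is a single
letter, or a (possibly empty) copy of a block that begins further to the left; the block may
overlap the phrase. A number is rational if and only if its digits in a base are cut into a bounded
number of phrases, at all scales; the first `L` letters of an automatic sequence have `O(log L)`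
phrases.

Here it is shown that the four numbers `ζ(7), ζ(9), ζ(11), ζ(13)` are not compressible to fewer
phrases together, in all bases, for the digits and for all representations by integers of absolute
value at most `b ^ h`:

1. in one base with a common parsing: `L ≤ C 1814 ^ z`;
2. each number in its own base `b j`, with a parsing of its own: if the prefixes have at least the real
   length `Λ` then `Λ ≤ C (∑ log (b j)) 7257 ^ (∑ z j)`, `7257 = 4 · 1814 + 1`;
3. for all large `L`, uniformly in the base `b`, for one of the four numbers the first `L` letters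
   are not cut into fewer than `(log L) / 36` phrases.

The linear complexity of these expansions (`DigitComplexityZeta7To13`) is a different measure. The
starting result `LempelZivExpansions` is about the seven numbers `ζ(9), …, ζ(21)`.

The proof: between two scales `t` and `7257 t` without break points of the parsings all expansions are
periodic, and this gives rational approximations `P j / q j` with `∏ q j ≤ exp (4 t)` and errors at
most `exp (-7257 t)`, up to a factor, against the measure of the four numbers (`Pool/Agent/Run7/h6/ZM`,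
joint work of helpers 851, 6, 56, 803, 321, 364 and 593); the library is `Pool/Agent/R343` of the
starting repository.
-/

namespace Pool.Agent.Results.MP_db0fbf_nt.LempelZivZeta7To13

open Finset Pool.Agent.R343.LP Pool.Agent.R343.LD

/-- the odd numbers from `7` to `13` -/
def T : Finset ℕ := {7, 9, 11, 13}

/-- `ζ(i) = ∑ 1/(n+1)^i` -/
noncomputable def zeta (i : ℕ) : ℝ := ∑' n : ℕ, 1 / ((n : ℝ) + 1) ^ i

theorem ms : ∃ c : ℝ, 0 < c ∧ Ms T zeta 1814 c := by
  obtain ⟨c, hc, hmeas⟩ := Pool.Agent.Run7.h6.ZM.measure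
  refine ⟨c, hc, fun q hq p => ?_⟩
  obtain ⟨j, hj, h1⟩ := hmeas p q hq
  refine ⟨j, hj, ?_⟩
  have hq0 : (0 : ℝ) < q := by exact_mod_cast hq
  have e1 : (q : ℝ) ^ ((1814 : ℝ) - 1) = (q : ℝ) ^ 1813 := by
    rw [← Real.rpow_natCast]
    norm_num
  have e2 : |(q : ℝ) * zeta j - p j| = q * |zeta j - (p j : ℝ) / q| := by
    rw [← abs_of_pos hq0, ← abs_mul, abs_of_pos hq0]
    congr 1
    field_simp
  have h2 : c / (q : ℝ) ^ 1814 ≤ |zeta j - (p j : ℝ) / q| := h1
  rw [div_le_iff₀ (by positivity)] at h2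
  rw [e1, e2]
  calc c ≤ |zeta j - (p j : ℝ) / q| * (q : ℝ) ^ 1814 := h2
    _ = (q : ℝ) ^ 1813 * (q * |zeta j - (p j : ℝ) / q|) := by ring

theorem log_le : Real.log 7257 ≤ 8.9 := by
  have h1 := Real.exp_one_gt_d9
  have h2 : (7257 : ℝ) ^ 10 ≤ Real.exp 1 ^ 89 := by
    calc (7257 : ℝ) ^ 10 ≤ 2.7182818283 ^ 89 := by norm_num
      _ ≤ _ := pow_le_pow_left₀ (by norm_num) h1.le _
  have h3 := Real.log_le_log (by positivity) h2
  rw [Real.log_pow, Real.log_pow, Real.log_exp] at h3
  push_cast at h3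
  linarith

/-- **The expansions of `ζ(7), ζ(9), ζ(11), ζ(13)`.** (1) One base, one parsing; (2) each number in its
own base; (3) at each large scale one of the numbers has many phrases. -/
theorem result : ∀ h : ℕ, ∃ C : ℝ, 0 < C ∧
    (∀ b : ℕ, 2 ≤ b → ∀ a : ℕ → ℕ → ℤ, (∀ j ∈ T, ∀ i, |a j i| ≤ ((b ^ h : ℕ) : ℤ)) →
      (∀ j ∈ T, ∃ n : ℤ,
        HasSum (fun i : ℕ => (a j i : ℝ) / (b : ℝ) ^ (i + 1)) (zeta j - n)) →
      ∀ L z : ℕ, LZ (fun i => fun j : T => a j i) L z → (L : ℝ) ≤ C * 1814 ^ z) ∧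
    (∀ b : ℕ → ℕ, (∀ j ∈ T, 2 ≤ b j) → ∀ a : ℕ → ℕ → ℤ,
      (∀ j ∈ T, ∀ i, |a j i| ≤ ((b j ^ h : ℕ) : ℤ)) →
      (∀ j ∈ T, ∃ n : ℤ,
        HasSum (fun i : ℕ => (a j i : ℝ) / (b j : ℝ) ^ (i + 1)) (zeta j - n)) →
      ∀ L z : ℕ → ℕ, (∀ j ∈ T, LZ (a j) (L j) (z j)) → ∀ Λ : ℝ,
        (∀ j ∈ T, Λ ≤ L j * Real.log (b j)) →
        Λ ≤ C * (∑ j ∈ T, Real.log (b j)) * 7257 ^ (∑ j ∈ T, z j)) ∧
    ∃ L₀ : ℕ, ∀ b : ℕ, 2 ≤ b → ∀ a : ℕ → ℕ → ℤ,
      (∀ j ∈ T, ∀ i, |a j i| ≤ ((b ^ h : ℕ) : ℤ)) →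
      (∀ j ∈ T, ∃ n : ℤ,
        HasSum (fun i : ℕ => (a j i : ℝ) / (b : ℝ) ^ (i + 1)) (zeta j - n)) →
      ∀ L : ℕ, L₀ ≤ L → ∃ j ∈ T, ∀ z : ℕ, LZ (a j) L z → Real.log L / 36 ≤ z := by
  intro h
  obtain ⟨c, hc, hM⟩ := ms
  have hcard : (T.card : ℝ) = 4 := by
    have h1 : T.card = 4 := by decide
    rw [h1]
    norm_num
  have hK : (T.card : ℝ) * 1814 + 1 = 7257 := by
    rw [hcard]
    norm_num
  obtain ⟨C1, hC1, h1⟩ := joint T zeta 1814 c (by norm_num) hc hM h
  obtain ⟨C2, hC2, h2⟩ := sep T zeta 1814 c (by norm_num) hc hM h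
  obtain ⟨L₀, h3⟩ := large T zeta 1814 c (by norm_num) hc hM h 36 (by
    rw [hK, hcard]
    have := log_le
    linarith)
  refine ⟨max C1 C2, lt_max_of_lt_left hC1, ?_, ?_, L₀, ?_⟩
  · intro b hb a ha hex L z hLZ
    refine (h1 b hb a ha hex L z hLZ).trans ?_
    exact mul_le_mul_of_nonneg_right (le_max_left _ _) (by positivity)
  · intro b hb a ha hex L z hLZ Λ hΛ
    have h4 := h2 b hb a ha hex L z hLZ Λ hΛ
    rw [hK] at h4
    refine h4.trans ?_
    have h5 : 0 ≤ ∑ j ∈ T, Real.log (b j) := Finset.sum_nonneg fun j hj =>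
      Real.log_natCast_nonneg _
    exact mul_le_mul_of_nonneg_right (mul_le_mul_of_nonneg_right (le_max_right _ _) h5)
      (by positivity)
  · intro b hb a ha hex L hL
    obtain ⟨j, hj, h4⟩ := h3 b hb a ha hex L hL
    refine ⟨j, hj, fun z hz => ?_⟩
    rw [div_le_iff₀ (by norm_num)]
    linarith [h4 z hz]

end Pool.Agent.Results.MP_db0fbf_nt.LempelZivZeta7To13
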